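import Pool.Agent.Helper65.CS.Goals2
import Pool.Agent.Helper81.CompC

/-!
# CS-FLI: search for decision lists (assembly)
-/

namespace Pool.Agent.Helper38.CS

open Pool.Agent.Helper81.CC Pool.Agent.Helper78.DT Pool.Agent.Helper65.CS
open scoped Classical

theorem pt_dsize : PolyTime (fun z : ℕ × DList => dsize z) := by
  unfold dsize
  refine PolyTime.add (by fun_prop) (PolyTime.sum ?_)
  fun_prop

theorem length_le_dsize (n : ℕ) (F : DList) : F.length ≤ dsize (n, F) := by
  unfold dsize
  have h : ∀ G : DList, G.length ≤ (G.map fun e => e.1.length + 1).sum := by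
    intro G
    induction G with
    | nil => simp
    | cons e G ih =>
      rw [List.map_cons, List.sum_cons, List.length_cons]
      omega
  exact (h F).trans (Nat.le_add_left _ _)

theorem fli (hCnt : Pool.Agent.Helper65.CS.CntStmt) (hLop : LopStmt) (hNrm : NrmStmt) (hFin : FinStmt) (hPtr : PtrStmt)
    (hBrf : BrfStmt) (hPtl : PtlStmt) : FliStmt := by
  intro hC c
  obtain ⟨g, hg, hcnt⟩ := hCnt hC (c + 4)
  obtain ⟨L0, hL⟩ := hLop c g hcnt
  obtain ⟨h, hh, hbf⟩ := hBrf (2 ^ L0)
  refine ⟨fun z => if L0 ≤ lg (dsize z) then srch g c z else h z, ?_, ?_⟩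
  · have hlg : PolyTime (fun z : ℕ × DList => lg (dsize z)) :=
      (hPtl (ℕ × DList) (fun z => dsize z) (fun z => dsize z) (fun z => dsize z) pt_dsize pt_dsize
        pt_dsize).1
    exact PolyTime.computable (PolyTime.itep (PolyTime.decide_le (PolyTime.const L0) hlg)
      (hPtr g c hg) hh)
  · intro n F hF
    have hcard : 0 < Nat.card {r : Fin n → Bool // DList.val r F = true} := by
      rcases Nat.eq_zero_or_pos (Nat.card {r : Fin n → Bool // DList.val r F = true}) with h0 | h0
      · rw [h0, Nat.mul_zero] at hF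
        exact absurd (Nat.pos_of_ne_zero (pow_ne_zero n (two_ne_zero))) (not_lt.2 hF)
      · exact h0
    have hex : ∃ r : Fin n → Bool, DList.val r F = true := by
      have hne := (Nat.card_pos_iff.1 hcard).1
      obtain ⟨r, hr⟩ := hne
      exact ⟨r, hr⟩
    by_cases hlg : L0 ≤ lg (dsize (n, F))
    · have hif : (fun z : ℕ × DList => if L0 ≤ lg (dsize z) then srch g c z else h z) (n, F) =
          srch g c (n, F) := if_pos hlg
      rw [hif]
      obtain ⟨h1, h2, h3, h4⟩ := hL n F hlg
      obtain ⟨-, -, h5, h6⟩ := hNrm n (Ww c (lg (dsize (n, F)))) F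
      have hL0 : (0 : ℝ) < (lg (dsize (n, F)) : ℝ) := by
        have : 0 < lg (dsize (n, F)) := by unfold lg; omega
        exact_mod_cast this
      have hLc : (0 : ℝ) < (lg (dsize (n, F)) : ℝ) ^ c := pow_pos hL0 c
      have h7 : 1 / (lg (dsize (n, F)) : ℝ) ^ c ≤ frac n F := by
        unfold frac
        rw [div_le_div_iff₀ hLc (by positivity), one_mul]
        have : ((2 ^ n : ℕ) : ℝ) ≤ (((Nat.log 2 (dsize (n, F)) + 2) ^ c *
          Nat.card {r : Fin n → Bool // DList.val r F = true} : ℕ) : ℝ) := by exact_mod_cast hF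
        push_cast at this
        unfold lg
        push_cast
        linarith
      have h8 : (F.length : ℝ) / 2 ^ Ww c (lg (dsize (n, F))) ≤
          (dsize (n, F) : ℝ) / 2 ^ Ww c (lg (dsize (n, F))) := by
        have : (F.length : ℝ) ≤ (dsize (n, F) : ℝ) := by exact_mod_cast length_le_dsize n F
        gcongr
      have h9 : 1 / (4 * (lg (dsize (n, F)) : ℝ) ^ c) = 1 / (lg (dsize (n, F)) : ℝ) ^ c / 4 := by
        field_simp
      have h10 : 0 < 1 / (lg (dsize (n, F)) : ℝ) ^ c := by positivity
      have h11 : 0 < frac n (st g c n F (dsize (n, F)) (TT (lg (dsize (n, F))))).2 := by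
        rw [h9] at h3 h4
        linarith
      obtain ⟨r, hr, hr'⟩ := hFin n _ _ _ h1 h2 h11
      exact ⟨r, h5 r hr, hr'⟩
    · have hif : (fun z : ℕ × DList => if L0 ≤ lg (dsize z) then srch g c z else h z) (n, F) =
          h (n, F) := if_neg hlg
      rw [hif]
      refine hbf n F ?_ hex
      have h1 : dsize (n, F) < 2 ^ (Nat.log 2 (dsize (n, F)) + 1) :=
        Nat.lt_pow_succ_log_self (by norm_num) _
      have h2 : lg (dsize (n, F)) = Nat.log 2 (dsize (n, F)) + 2 := rfl
      have h3 : (2 : ℕ) ^ (Nat.log 2 (dsize (n, F)) + 1) ≤ 2 ^ L0 :=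
        Nat.pow_le_pow_right (by norm_num) (by omega)
      omega

end Pool.Agent.Helper38.CS
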